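import Pool.Agent.Helper63.PG.Alg

/-! # Module DEG: degrees in the graph of the anchors -/

set_option autoImplicit false

namespace Pool.Agent.Helper47.PG

open Pool.Agent.Helper63.PG Pool.Agent.Helper63.OC Pool.Agent.Helper24.OCM

private lemma disj_DEG {K : ℕ} {G : SimpleGraph ℕ} {a b : ℕ} (hab : a ≠ b) (ha : isAnc K G a)
    (hb : isAnc K G b) (hcl : cl K G a = cl K G b) : Disjoint (Bl K G a) (Bl K G b) := by
  rcases lt_or_gt_of_ne hab with h | h
  · rw [isAnc] at hb
    exact hb a h ha hcl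
  · rw [isAnc] at ha
    exact (ha b h hb hcl.symm).symm

theorem hDEG {K : ℕ} (hK : 1 ≤ K) {G : SimpleGraph ℕ} {v : ℕ}
    (hg : ∀ w ≤ v, (bal G w (rr (ci K G w + 1))).ncard ≤ K * (bal G w (rr (ci K G w))).ncard)
    (x : ℕ) : {y | y ≠ x ∧ ng K G v x y}.Finite ∧
      {y | y ≠ x ∧ ng K G v x y}.ncard + 2 ≤ 2 * K := by
  classical
  set S : Set ℕ := {y | y ≠ x ∧ ng K G v x y} with hS
  have hfin : S.Finite := by
    refine (Set.finite_Iic v).subset ?_
    rintro y ⟨_, w, hw, _, hy⟩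
    exact hy.1.trans hw
  refine ⟨hfin, ?_⟩
  rcases S.eq_empty_or_nonempty with he | ⟨y0, hy0⟩
  · rw [he, Set.ncard_empty]
    omega
  -- the largest time
  set W : Set ℕ := {w | w ≤ v ∧ near K G w x ∧ ∃ y, y ≠ x ∧ near K G w y} with hW
  have hWfin : W.Finite := (Set.finite_Iic v).subset fun w hw => hw.1
  have hWne : W.Nonempty := by
    obtain ⟨hne, w, hw, h1, h2⟩ := hy0
    exact ⟨w, hw, h1, y0, hne, h2⟩
  obtain ⟨w, hwW, hmax⟩ := hWfin.exists_maximal hWne
  have hmax' : ∀ w' ∈ W, w' ≤ w := by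
    intro w' hw'
    rcases le_total w' w with h | h
    · exact h
    · exact hmax hw' h
  obtain ⟨hwv, hnx, -⟩ := hwW
  set ρ : ℕ := rr (ci K G w) with hρ
  set j : ℕ := cj K G w with hj
  have hrr : rr (ci K G w + 1) = 7 * ρ + 3 := rfl
  -- properties of the points
  have hcl : ∀ a, cl K G a = cl K G w → ci K G a = ci K G w ∧ cj K G a = cj K G w := by
    intro a ha
    unfold cl at ha
    exact Prod.mk.injEq _ _ _ _ ▸ ha
  have hprop : ∀ y ∈ insert x S, isAnc K G y ∧ cl K G y = cl K G w ∧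
      Bl K G y ⊆ bal G w (7 * ρ + 3) := by
    intro y hy
    rcases Set.mem_insert_iff.1 hy with rfl | hyS
    · refine ⟨hnx.2.1, hnx.2.2.1, ?_⟩
      intro z hz
      have h1 : nr G y y z ρ := by
        have : nr G y y z (rr (ci K G y)) := hz
        rwa [(hcl y hnx.2.2.1).1] at this
      have h2 : nr G w y z ρ := nr_time h1 hnx.1
      exact nr_mono (nr_trans hnx.2.2.2 h2) (by omega)
    · obtain ⟨hne, w', hw', h1, h2⟩ := hyS
      have hw'w : w' ≤ w := hmax' w' ⟨hw', h1, y, hne, h2⟩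
      have hc1 : cl K G w' = cl K G w := h1.2.2.1.symm.trans hnx.2.2.1
      have hc2 : cl K G y = cl K G w := h2.2.2.1.trans hc1
      refine ⟨h2.2.1, hc2, ?_⟩
      intro z hz
      have g1 : nr G y y z ρ := by
        have : nr G y y z (rr (ci K G y)) := hz
        rwa [(hcl y hc2).1] at this
      have g2 : nr G w y z ρ := nr_time g1 (h2.1.trans hw'w)
      have g3 := h1.2.2.2
      have g4 := h2.2.2.2
      rw [(hcl w' hc1).1] at g3 g4
      have g5 : nr G w x y (2 * ρ + 1 + (2 * ρ + 1)) := nr_time (nr_trans (nr_symm g3) g4) hw'w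
      exact nr_mono (nr_trans (nr_trans hnx.2.2.2 g5) g2) (by omega)
  -- cardinalities
  set T : Finset ℕ := insert x hfin.toFinset with hT
  have hTmem : ∀ y, y ∈ T ↔ y ∈ insert x S := by
    intro y
    rw [hT, Finset.mem_insert, Set.Finite.mem_toFinset, Set.mem_insert_iff]
  have hxS : x ∉ S := fun h => h.1 rfl
  have hTcard : T.card = S.ncard + 1 := by
    rw [hT, Finset.card_insert_of_notMem (by rwa [Set.Finite.mem_toFinset]),
      Set.ncard_eq_toFinset_card S hfin]
  set F : ℕ → Finset ℕ := fun y => (bal_fin G y (rr (ci K G y))).toFinset with hF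
  have hFcard : ∀ y, (F y).card = (Bl K G y).ncard := by
    intro y
    rw [hF]
    exact (Set.ncard_eq_toFinset_card _ _).symm
  have hFlow : ∀ y ∈ T, 2 ^ j ≤ (F y).card := by
    intro y hy
    obtain ⟨-, h2, -⟩ := hprop y ((hTmem y).1 hy)
    rw [hFcard, hj, ← (hcl y h2).2]
    apply Nat.pow_log_le_self
    have : 0 < (Bl K G y).ncard := (Set.ncard_pos (bal_fin _ _ _)).2 ⟨y, self_mem_bal _ _ _⟩
    exact this.ne'
  have hdisj : (T : Set ℕ).PairwiseDisjoint F := by
    intro a ha b hb hab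
    obtain ⟨a1, a2, -⟩ := hprop a ((hTmem a).1 ha)
    obtain ⟨b1, b2, -⟩ := hprop b ((hTmem b).1 hb)
    have := disj_DEG hab a1 b1 (a2.trans b2.symm)
    show Disjoint (F a) (F b)
    rw [Finset.disjoint_left]
    intro z hz1 hz2
    exact Set.disjoint_left.1 this ((Set.Finite.mem_toFinset _).1 hz1)
      ((Set.Finite.mem_toFinset _).1 hz2)
  have h1 : T.card * 2 ^ j ≤ (T.biUnion F).card := by
    rw [Finset.card_biUnion hdisj, ← smul_eq_mul]
    exact Finset.card_nsmul_le_sum _ _ _ hFlow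
  have h2 : (T.biUnion F).card ≤ (bal G w (7 * ρ + 3)).ncard := by
    rw [← Set.ncard_coe_finset]
    apply Set.ncard_le_ncard _ (bal_fin _ _ _)
    intro z hz
    rw [Finset.mem_coe, Finset.mem_biUnion] at hz
    obtain ⟨y, hy, hz⟩ := hz
    exact (hprop y ((hTmem y).1 hy)).2.2 ((Set.Finite.mem_toFinset _).1 hz)
  have h3 : (bal G w (7 * ρ + 3)).ncard ≤ K * (bal G w ρ).ncard := hg w hwv
  have h4 : (bal G w ρ).ncard < 2 ^ (j + 1) := Nat.lt_pow_succ_log_self (by norm_num) _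
  have h5 : K * (bal G w ρ).ncard < K * 2 ^ (j + 1) := Nat.mul_lt_mul_of_pos_left h4 hK
  have h6 : (S.ncard + 1) * 2 ^ j < (2 * K) * 2 ^ j := by
    calc (S.ncard + 1) * 2 ^ j = T.card * 2 ^ j := by rw [hTcard]
      _ < K * 2 ^ (j + 1) := lt_of_le_of_lt (h1.trans (h2.trans h3)) h5
      _ = (2 * K) * 2 ^ j := by ring
  have h7 := Nat.lt_of_mul_lt_mul_right h6
  omega

end Pool.Agent.Helper47.PG
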